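import Mathlib
import Pool.Agent.Helper40.Lin.Defs

/-!
# A local field and a representation over it: core argument
-/

set_option autoImplicit false

open scoped Matrix Polynomial

namespace Pool.Agent.Helper24.Lin

open Pool.Agent.Helper40.Lin

universe u

theorem alg2_closure {E : Type u} [Field E] (S : Finset E) :
    ∃ S' : Finset (Subfield.closure (S : Set E)),
      Subfield.closure (S' : Set (Subfield.closure (S : Set E))) = ⊤ := by
  classical
  let S' : Finset (Subfield.closure (S : Set E)) :=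
    S.attach.image fun x => ⟨x.1, Subfield.subset_closure x.2⟩
  refine ⟨S', ?_⟩
  rw [eq_top_iff]
  rintro ⟨x, hx⟩ -
  refine Subfield.closure_induction (s := (S : Set E))
    (p := fun x hx => (⟨x, hx⟩ : Subfield.closure (S : Set E)) ∈
      Subfield.closure (S' : Set (Subfield.closure (S : Set E))))
    ?_ ?_ ?_ ?_ ?_ ?_ hx
  · intro y hy
    refine Subfield.subset_closure ?_
    simp only [S', Finset.coe_image, Set.mem_image]
    exact ⟨⟨y, hy⟩, Finset.mem_coe.2 (Finset.mem_attach _ _), rfl⟩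
  · exact Subfield.one_mem _
  · intro y z hy hz h1 h2
    exact Subfield.add_mem _ h1 h2
  · intro y hy h1
    exact Subfield.neg_mem _ h1
  · intro y hy h1
    exact Subfield.inv_mem _ h1
  · intro y z hy hz h1 h2
    exact Subfield.mul_mem _ h1 h2

theorem alg2_countable {E : Type u} [Field E] (S : Finset E) :
    Countable (Subfield.closure (S : Set E)) := by
  rw [← Cardinal.mk_le_aleph0_iff]
  refine (Subfield.cardinalMk_closure_le_max _).trans ?_
  refine max_le ?_ le_rfl
  rw [Cardinal.mk_le_aleph0_iff]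
  exact (Finset.countable_toSet S).to_subtype

/-- a matrix with entries in a subfield -/
theorem alg2_lift {E : Type u} [Field E] (F : Subfield E) {m : ℕ} (t : GL (Fin m) E)
    (h : ∀ i j, t.1 i j ∈ F) (h' : ∀ i j, (t⁻¹ : GL (Fin m) E).1 i j ∈ F) :
    ∃ tF : GL (Fin m) F, Matrix.GeneralLinearGroup.map F.subtype tF = t := by
  have hinj : Function.Injective fun M : Matrix (Fin m) (Fin m) F => M.map F.subtype :=
    Matrix.map_injective F.subtype.injective
  let a : Matrix (Fin m) (Fin m) F := fun i j => ⟨t.1 i j, h i j⟩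
  let b : Matrix (Fin m) (Fin m) F := fun i j => ⟨(t⁻¹ : GL (Fin m) E).1 i j, h' i j⟩
  have ha : a.map F.subtype = t.1 := rfl
  have hb : b.map F.subtype = (t⁻¹ : GL (Fin m) E).1 := rfl
  have h1 : a * b = 1 := by
    refine hinj ?_
    change (a * b).map F.subtype = (1 : Matrix (Fin m) (Fin m) F).map F.subtype
    rw [Matrix.map_mul, ha, hb, ← Matrix.GeneralLinearGroup.coe_mul, mul_inv_cancel]
    simp
  have h2 : b * a = 1 := by
    refine hinj ?_
    change (b * a).map F.subtype = (1 : Matrix (Fin m) (Fin m) F).map F.subtype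
    rw [Matrix.map_mul, ha, hb, ← Matrix.GeneralLinearGroup.coe_mul, inv_mul_cancel]
    simp
  refine ⟨⟨a, b, h1, h2⟩, ?_⟩
  refine Units.ext ?_
  exact ha

theorem alg2_coe {F : Type u} {k : Type*} [Field F] [Field k] (σ : F →+* k) {m : ℕ}
    (g : GL (Fin m) F) : (Matrix.GeneralLinearGroup.map σ g).1 = g.1.map σ := rfl

/-- the representation over `k` -/
theorem alg2_psi {E : Type u} [Field E] {m : ℕ} (t s : GL (Fin m) E) (F : Subfield E)
    (tF sF : GL (Fin m) F) (ht : Matrix.GeneralLinearGroup.map F.subtype tF = t)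
    (hs : Matrix.GeneralLinearGroup.map F.subtype sF = s) {k : Type} [Field k] (σ : F →+* k) :
    ∃ ψ : Subgroup.closure ({t, s} : Set (GL (Fin m) E)) →* GL (Fin m) k,
      ψ ⟨t, Subgroup.subset_closure (by simp)⟩ = Matrix.GeneralLinearGroup.map σ tF ∧
      ψ ⟨s, Subgroup.subset_closure (by simp)⟩ = Matrix.GeneralLinearGroup.map σ sF := by
  have hinj : Function.Injective
      (Matrix.GeneralLinearGroup.map F.subtype : GL (Fin m) F →* GL (Fin m) E) := by
    intro x y h
    refine Units.ext ?_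
    refine Matrix.map_injective F.subtype.injective ?_
    exact congrArg Units.val h
  have hle : Subgroup.closure ({t, s} : Set (GL (Fin m) E)) ≤
      (Matrix.GeneralLinearGroup.map F.subtype : GL (Fin m) F →* GL (Fin m) E).range := by
    rw [Subgroup.closure_le]
    rintro x (rfl | hx)
    · exact ⟨tF, ht⟩
    · rw [Set.mem_singleton_iff] at hx
      rw [hx]
      exact ⟨sF, hs⟩
  let e := MonoidHom.ofInjective hinj
  refine ⟨(Matrix.GeneralLinearGroup.map σ).comp (e.symm.toMonoidHom.comp
    (Subgroup.inclusion hle)), ?_, ?_⟩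
  · change Matrix.GeneralLinearGroup.map σ (e.symm _) = _
    congr 1
    rw [MulEquiv.symm_apply_eq]
    exact Subtype.ext ht.symm
  · change Matrix.GeneralLinearGroup.map σ (e.symm _) = _
    congr 1
    rw [MulEquiv.symm_apply_eq]
    exact Subtype.ext hs.symm

/-- if all eigenvalues have the same `q`-th power `c` then `t ^ q - c` is nilpotent -/
theorem alg2_nil {E : Type u} [Field E] [IsAlgClosed E] {m : ℕ} (t : Matrix (Fin m) (Fin m) E)
    (q : ℕ) (c : E) (h : ∀ a ∈ t.charpoly.roots, a ^ q = c) :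
    IsNilpotent (t ^ q - Matrix.scalar (Fin m) c) := by
  have hsplit := IsAlgClosed.splits t.charpoly
  have h1 : t.charpoly = (t.charpoly.roots.map fun a => (Polynomial.X - Polynomial.C a)).prod := by
    have h2 := hsplit.eq_prod_roots_of_monic (Matrix.charpoly_monic t)
    exact h2
  have h3 : t.charpoly ∣ (Polynomial.X ^ q - Polynomial.C c) ^ t.charpoly.roots.card := by
    conv_lhs => rw [h1]
    have h4 : ∀ s : Multiset E, (∀ a ∈ s, a ^ q = c) →
        (s.map fun a => (Polynomial.X - Polynomial.C a)).prod ∣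
          (Polynomial.X ^ q - Polynomial.C c) ^ s.card := by
      intro s
      induction s using Multiset.induction_on with
      | empty => intro _; simp
      | cons a s ih =>
        intro hs
        rw [Multiset.map_cons, Multiset.prod_cons, Multiset.card_cons, pow_succ']
        refine mul_dvd_mul ?_ (ih fun b hb => hs b (Multiset.mem_cons_of_mem hb))
        rw [← hs a (Multiset.mem_cons_self a s), Polynomial.C_pow]
        exact sub_dvd_pow_sub_pow _ _ _
    exact h4 _ h
  obtain ⟨g, hg⟩ := h3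
  refine ⟨t.charpoly.roots.card, ?_⟩
  have h5 := congrArg (Polynomial.aeval t) hg
  rw [map_mul, Matrix.aeval_self_charpoly, zero_mul, map_pow, map_sub, map_pow,
    Polynomial.aeval_X, Polynomial.aeval_C] at h5
  exact h5

theorem alg2_scalar {E : Type u} [Field E] {m : ℕ} (hm : 2 ≤ m) (a b : Matrix (Fin m) (Fin m) E)
    (c : E) (ha : a = Matrix.scalar (Fin m) c) (h : Algebra.adjoin E {a, b} = ⊤) : False := by
  have hac : ∀ x, a * x = x * a := by
    intro x
    rw [ha]
    exact (Matrix.scalar_commute c (fun r => mul_comm c r) x)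
  have hb : ∀ x, x * b = b * x := by
    intro x
    have h1 : Algebra.adjoin E {a, b} ≤ Subalgebra.centralizer E {b} := by
      refine Algebra.adjoin_le ?_
      rintro y (rfl | hy)
      · intro z hz
        rw [Set.mem_singleton_iff] at hz
        rw [hz]
        exact (hac b).symm
      · rw [Set.mem_singleton_iff] at hy
        rw [hy]
        intro z hz
        rw [Set.mem_singleton_iff] at hz
        rw [hz]
    rw [h] at h1
    have h2 := h1 (Algebra.mem_top (x := x))
    rw [Subalgebra.mem_centralizer_iff] at h2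
    exact (h2 b rfl).symm
  have hall : ∀ x y : Matrix (Fin m) (Fin m) E, y * x = x * y := by
    intro x y
    have h1 : Algebra.adjoin E {a, b} ≤ Subalgebra.centralizer E {y} := by
      refine Algebra.adjoin_le ?_
      rintro z (rfl | hz)
      · intro w hw
        rw [Set.mem_singleton_iff] at hw
        rw [hw]
        exact (hac y).symm
      · rw [Set.mem_singleton_iff] at hz
        rw [hz]
        intro w hw
        rw [Set.mem_singleton_iff] at hw
        rw [hw]
        exact hb y
    rw [h] at h1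
    have h2 := h1 (Algebra.mem_top (x := x))
    rw [Subalgebra.mem_centralizer_iff] at h2
    exact h2 y rfl
  let i0 : Fin m := ⟨0, by omega⟩
  let i1 : Fin m := ⟨1, by omega⟩
  have hne : i0 ≠ i1 := by simp [i0, i1, Fin.ext_iff]
  have h3 := hall (Matrix.single i0 i1 1) (Matrix.single i1 i0 1)
  rw [Matrix.single_mul_single_same, Matrix.single_mul_single_same] at h3
  have h4 := congrFun (congrFun h3 i1) i1
  simp [hne] at h4

theorem alg2_scal {F : Type u} [Field F] {k : Type*} [Field k] {m : ℕ} (σ : F →+* k)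
    (tF : GL (Fin m) F) (q : ℕ) (c : F) :
    (((tF ^ q).1 - Matrix.scalar (Fin m) c).map σ) =
      ((Matrix.GeneralLinearGroup.map σ tF) ^ q).1 - Matrix.scalar (Fin m) (σ c) := by
  rw [← map_pow, alg2_coe]
  ext i j
  simp only [Matrix.map_apply, Matrix.sub_apply, map_sub, Matrix.scalar_apply,
    Matrix.diagonal_apply]
  split_ifs <;> simp

theorem alg2_core {E : Type u} [Field E] [CharZero E] [IsAlgClosed E]
    (TITS : ∀ {F : Type u} [Field F] [CharZero F] (S : Finset F)
      (_ : Subfield.closure (S : Set F) = ⊤) (ρ : F) (_ : ρ ≠ 0)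
      (_ : ∀ n : ℕ, 1 ≤ n → ρ ^ n ≠ 1),
      ∃ (k : Type) (_ : NontriviallyNormedField k) (_ : ProperSpace k) (σ : F →+* k), ‖σ ρ‖ ≠ 1)
    (TRANS : ∀ {F : Type u} [Field F] {E : Type u} [Field E] {k : Type} [Field k] (m : ℕ)
      (i : F →+* E) (σ : F →+* k) (a b : Matrix (Fin m) (Fin m) F)
      (_ : Algebra.adjoin E {a.map i, b.map i} = ⊤), Algebra.adjoin k {a.map σ, b.map σ} = ⊤)
    (FULLIRR : ∀ {k : Type} [Field k] (m : ℕ) (a b : GL (Fin m) k)
      (_ : Algebra.adjoin k {a.1, b.1} = ⊤), Irr a b)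
    (UNB1 : ∀ {k : Type} [NormedField k] (m : ℕ) (t : GL (Fin m) k) (a b : k)
      (_ : t.1.charpoly.IsRoot a) (_ : t.1.charpoly.IsRoot b) (_ : ‖a‖ ≠ ‖b‖), Unb t)
    (UNB2 : ∀ (m : ℕ) (t : GL (Fin m) ℂ) (q : ℕ) (_ : 1 ≤ q) (c : ℂ)
      (_ : IsNilpotent ((t ^ q).1 - Matrix.scalar (Fin m) c))
      (_ : (t ^ q).1 ≠ Matrix.scalar (Fin m) c), Unb t)
    (EXT : ∀ {F : Type u} [Field F] [CharZero F] [Countable F] (ρ : F)
      {Ω : Type} [Field Ω] [CharZero Ω] [IsAlgClosed Ω] [Uncountable Ω] (β : Ω)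
      (_ : (Transcendental ℚ ρ ∧ Transcendental ℚ β) ∨
        (IsAlgebraic ℚ ρ ∧ Polynomial.aeval β (minpoly ℚ ρ) = 0)),
      ∃ σ : F →+* Ω, σ ρ = β)
    (m : ℕ) (hm : 2 ≤ m) (t s : GL (Fin m) E)
    (h : ∀ q : ℕ, 1 ≤ q → Algebra.adjoin E {(t ^ q).1, (s ^ q).1} = ⊤) :
    ∃ (k : Type) (_ : NontriviallyNormedField k) (_ : ProperSpace k)
      (ψ : Subgroup.closure ({t, s} : Set (GL (Fin m) E)) →* GL (Fin m) k),
      (∀ q : ℕ, 1 ≤ q → Irr ((ψ ⟨t, Subgroup.subset_closure (by simp)⟩) ^ q)
        ((ψ ⟨s, Subgroup.subset_closure (by simp)⟩) ^ q)) ∧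
      Unb (ψ ⟨t, Subgroup.subset_closure (by simp)⟩) := by
  classical
  -- the field of definition
  let S : Finset E :=
    (((Finset.univ : Finset (Fin m × Fin m)).image fun x => t.1 x.1 x.2) ∪
    ((Finset.univ : Finset (Fin m × Fin m)).image fun x => (t⁻¹ : GL (Fin m) E).1 x.1 x.2)) ∪
    (((Finset.univ : Finset (Fin m × Fin m)).image fun x => s.1 x.1 x.2) ∪
    ((Finset.univ : Finset (Fin m × Fin m)).image fun x => (s⁻¹ : GL (Fin m) E).1 x.1 x.2)) ∪
    t.1.charpoly.roots.toFinset
  let F : Subfield E := Subfield.closure (S : Set E)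
  have hSF : ∀ x ∈ S, x ∈ F := fun x hx => Subfield.subset_closure hx
  obtain ⟨S', hS'⟩ := alg2_closure S
  have hcount : Countable F := alg2_countable S
  obtain ⟨tF, htF⟩ := alg2_lift F t
    (fun i j => hSF _ (by simp only [S, Finset.mem_union, Finset.mem_image]
                          exact Or.inl (Or.inl (Or.inl ⟨(i, j), Finset.mem_univ _, rfl⟩))))
    (fun i j => hSF _ (by simp only [S, Finset.mem_union, Finset.mem_image]
                          exact Or.inl (Or.inl (Or.inr ⟨(i, j), Finset.mem_univ _, rfl⟩))))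
  obtain ⟨sF, hsF⟩ := alg2_lift F s
    (fun i j => hSF _ (by simp only [S, Finset.mem_union, Finset.mem_image]
                          exact Or.inl (Or.inr (Or.inl ⟨(i, j), Finset.mem_univ _, rfl⟩))))
    (fun i j => hSF _ (by simp only [S, Finset.mem_union, Finset.mem_image]
                          exact Or.inl (Or.inr (Or.inr ⟨(i, j), Finset.mem_univ _, rfl⟩))))
  have hroots : ∀ a ∈ t.1.charpoly.roots, a ∈ F := fun a ha => hSF a (by
    simp only [S, Finset.mem_union]
    exact Or.inr (Multiset.mem_toFinset.2 ha))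
  have hmapt : ∀ q : ℕ, ((tF ^ q).1).map F.subtype = (t ^ q).1 := by
    intro q
    rw [← alg2_coe, map_pow, htF]
  have hmaps : ∀ q : ℕ, ((sF ^ q).1).map F.subtype = (s ^ q).1 := by
    intro q
    rw [← alg2_coe, map_pow, hsF]
  -- irreducibility
  have hIrr : ∀ {k : Type} [Field k] (σ : F →+* k) (q : ℕ), 1 ≤ q →
      Irr ((Matrix.GeneralLinearGroup.map σ tF) ^ q) ((Matrix.GeneralLinearGroup.map σ sF) ^ q) := by
    intro k _ σ q hq
    refine FULLIRR m _ _ ?_
    rw [← map_pow, ← map_pow, alg2_coe, alg2_coe]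
    refine TRANS m F.subtype σ _ _ ?_
    rw [hmapt, hmaps]
    exact h q hq
  have hchar : tF.1.charpoly.map F.subtype = t.1.charpoly := by
    rw [← Matrix.charpoly_map, ← alg2_coe, htF]
  have hrootF : ∀ a (ha : a ∈ t.1.charpoly.roots), tF.1.charpoly.IsRoot ⟨a, hroots a ha⟩ := by
    intro a ha
    have h1 : (t.1.charpoly).IsRoot a := (Polynomial.mem_roots'.1 ha).2
    rw [← hchar] at h1
    exact Polynomial.IsRoot.of_map (f := F.subtype) (x := ⟨a, hroots a ha⟩) h1 F.subtype.injective
  have hrootk : ∀ {k : Type} [Field k] (σ : F →+* k) (a) (ha : a ∈ t.1.charpoly.roots),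
      ((Matrix.GeneralLinearGroup.map σ tF).1).charpoly.IsRoot (σ ⟨a, hroots a ha⟩) := by
    intro k _ σ a ha
    rw [alg2_coe, Matrix.charpoly_map]
    exact (hrootF a ha).map
  have hne0 : ∀ a ∈ t.1.charpoly.roots, a ≠ 0 := by
    rintro a ha rfl
    have h1 : (t.1.charpoly).IsRoot 0 := (Polynomial.mem_roots'.1 ha).2
    have h2 : t.1.det = 0 := by
      rw [Matrix.det_eq_sign_charpoly_coeff, Polynomial.coeff_zero_eq_eval_zero, h1.eq_zero,
        mul_zero]
    have h3 := Matrix.GeneralLinearGroup.det_ne_zero t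
    exact h3 h2
  by_cases hcase : ∃ a ∈ t.1.charpoly.roots, ∃ b ∈ t.1.charpoly.roots,
      ∀ n : ℕ, 1 ≤ n → (a / b) ^ n ≠ 1
  · obtain ⟨a, ha, b, hb, hab⟩ := hcase
    let aF : F := ⟨a, hroots a ha⟩
    let bF : F := ⟨b, hroots b hb⟩
    have haF : aF ≠ 0 := fun h0 => hne0 a ha (congrArg Subtype.val h0)
    have hbF : bF ≠ 0 := fun h0 => hne0 b hb (congrArg Subtype.val h0)
    obtain ⟨k, i1, i2, σ, hσ⟩ := TITS S' hS' (aF / bF) (div_ne_zero haF hbF) (by
      intro n hn h0
      exact hab n hn (congrArg Subtype.val h0))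
    obtain ⟨ψ, h1, h2⟩ := alg2_psi t s F tF sF htF hsF σ
    refine ⟨k, i1, i2, ψ, ?_, ?_⟩
    · intro q hq
      rw [h1, h2]
      exact hIrr σ q hq
    · rw [h1]
      refine UNB1 m _ (σ aF) (σ bF) (hrootk σ a ha) (hrootk σ b hb) ?_
      intro h3
      refine hσ ?_
      rw [map_div₀, norm_div, h3, div_self]
      rw [norm_ne_zero_iff]
      exact (map_ne_zero σ).2 hbF
  · push Not at hcase
    -- all ratios are roots of unity
    have hne : t.1.charpoly.roots ≠ 0 := by
      intro h0
      have h1 := (IsAlgClosed.splits t.1.charpoly).natDegree_eq_card_roots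
      rw [h0, Matrix.charpoly_natDegree_eq_dim, Fintype.card_fin, Multiset.card_zero] at h1
      omega
    obtain ⟨b, hb⟩ := Multiset.exists_mem_of_ne_zero hne
    have hq : ∃ q : ℕ, 1 ≤ q ∧ ∀ a ∈ t.1.charpoly.roots, a ^ q = b ^ q := by
      have h1 : ∀ s : Multiset E, (∀ a ∈ s, ∃ n : ℕ, 1 ≤ n ∧ (a / b) ^ n = 1) →
          ∃ q : ℕ, 1 ≤ q ∧ ∀ a ∈ s, (a / b) ^ q = 1 := by
        intro s
        induction s using Multiset.induction_on with
        | empty => exact fun _ => ⟨1, le_rfl, fun a ha => absurd ha (Multiset.notMem_zero a)⟩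
        | cons a s ih =>
          intro hs
          obtain ⟨q, hq1, hq2⟩ := ih fun c hc => hs c (Multiset.mem_cons_of_mem hc)
          obtain ⟨n, hn1, hn2⟩ := hs a (Multiset.mem_cons_self a s)
          refine ⟨q * n, Nat.mul_pos hq1 hn1, fun c hc => ?_⟩
          rcases Multiset.mem_cons.1 hc with rfl | hc
          · rw [mul_comm, pow_mul, hn2, one_pow]
          · rw [pow_mul, hq2 c hc, one_pow]
      obtain ⟨q, hq1, hq2⟩ := h1 t.1.charpoly.roots fun a ha => hcase a ha b hb
      refine ⟨q, hq1, fun a ha => ?_⟩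
      have h2 := hq2 a ha
      rw [div_pow, div_eq_one_iff_eq (pow_ne_zero _ (hne0 b hb))] at h2
      exact h2
    obtain ⟨q, hq1, hq2⟩ := hq
    let bF : F := ⟨b, hroots b hb⟩
    have hnilE := alg2_nil t.1 q (b ^ q) hq2
    have hnilF : IsNilpotent ((tF ^ q).1 - Matrix.scalar (Fin m) (bF ^ q)) := by
      have h1 : IsNilpotent ((F.subtype.mapMatrix) ((tF ^ q).1 - Matrix.scalar (Fin m) (bF ^ q))) := by
        have h2 := alg2_scal F.subtype tF q (bF ^ q)
        rw [htF] at h2
        change IsNilpotent (((tF ^ q).1 - Matrix.scalar (Fin m) (bF ^ q)).map F.subtype)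
        rw [h2]
        exact hnilE
      exact (IsNilpotent.map_iff (f := F.subtype.mapMatrix)
        (Matrix.map_injective F.subtype.injective)).1 h1
    have hneF : (tF ^ q).1 ≠ Matrix.scalar (Fin m) (bF ^ q) := by
      intro h0
      have h2 := alg2_scal F.subtype tF q (bF ^ q)
      rw [h0, sub_self, htF] at h2
      have h3 : (t ^ q).1 = Matrix.scalar (Fin m) (F.subtype (bF ^ q)) := by
        have h4 : (0 : Matrix (Fin m) (Fin m) F).map F.subtype = 0 := by simp
        rw [h4] at h2
        exact (sub_eq_zero.1 h2.symm)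
      exact alg2_scalar hm _ _ _ h3 (h q hq1)
    have hunc : Uncountable ℂ := by
      rw [← Cardinal.aleph0_lt_mk_iff, Cardinal.mk_complex]
      exact Cardinal.aleph0_lt_continuum
    obtain ⟨σ, -⟩ := EXT (1 : F) (1 : ℂ) (Or.inr ⟨isAlgebraic_one, by simp [minpoly.one]⟩)
    obtain ⟨ψ, h1, h2⟩ := alg2_psi t s F tF sF htF hsF σ
    refine ⟨ℂ, inferInstance, inferInstance, ψ, ?_, ?_⟩
    · intro q hq
      rw [h1, h2]
      exact hIrr σ q hq
    · rw [h1]
      refine UNB2 m _ q hq1 (σ (bF ^ q)) ?_ ?_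
      · rw [← alg2_scal σ]
        exact hnilF.map σ.mapMatrix
      · intro h0
        refine hneF ?_
        have h3 := alg2_scal σ tF q (bF ^ q)
        rw [h0, sub_self] at h3
        have h4 : ((tF ^ q).1 - Matrix.scalar (Fin m) (bF ^ q)).map σ =
            (0 : Matrix (Fin m) (Fin m) F).map σ := by
          rw [h3]
          simp
        exact sub_eq_zero.1 (Matrix.map_injective σ.injective h4)

end Pool.Agent.Helper24.Lin
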