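import Mathlib
import Pool.Agent.Helper40.Lin.Defs
import Pool.Agent.Helper24.Lin.ALG2c
import Pool.Agent.Helper81.Lin.TITS
import Pool.Agent.Helper94.Lin.TRANS
import Pool.Agent.Helper7.Lin.EXT
import Pool.Agent.Helper97.Lin.UNB

/-!
# A local field and a representation over it
-/

set_option autoImplicit false

open MeasureTheory Filter Topology
open scoped LinearAlgebra.Projectivization Matrix Polynomial

namespace Pool.Agent.Helper24.Lin

open Pool.Agent.Helper40.Lin

universe u v w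

/-- a local field and a representation over it -/
theorem ALG2 {E : Type u} [Field E] [CharZero E] [IsAlgClosed E] (m : ℕ) (hm : 2 ≤ m)
    (t s : GL (Fin m) E)
    (h : ∀ q : ℕ, 1 ≤ q → Algebra.adjoin E {(t ^ q).1, (s ^ q).1} = ⊤) :
    ∃ (k : Type) (_ : NontriviallyNormedField k) (_ : ProperSpace k)
      (ψ : Subgroup.closure ({t, s} : Set (GL (Fin m) E)) →* GL (Fin m) k),
      (∀ q : ℕ, 1 ≤ q → Irr ((ψ ⟨t, Subgroup.subset_closure (by simp)⟩) ^ q)
        ((ψ ⟨s, Subgroup.subset_closure (by simp)⟩) ^ q)) ∧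
      Unb (ψ ⟨t, Subgroup.subset_closure (by simp)⟩) :=
  alg2_core (fun S hS ρ h0 hroot => Pool.Agent.Helper81.Lin.TITS S hS ρ h0 hroot)
    (fun m i σ a b h => Pool.Agent.Helper94.Lin.TRANS m i σ a b h)
    (fun m a b h => Pool.Agent.Helper94.Lin.FULLIRR m a b h)
    (fun m t a b ha hb hab => Pool.Agent.Helper97.Lin.UNB1 m t a b ha hb hab)
    (fun m t q hq c hnil hne => Pool.Agent.Helper97.Lin.UNB2 m t q hq c hnil hne)
    (fun ρ _ _ _ _ _ β h => Pool.Agent.Helper7.Lin.EXT ρ β h) m hm t s h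

end Pool.Agent.Helper24.Lin
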